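import Pool.Agent.Work.MP_6bf1e5_an.En.Stat
import Pool.Agent.Work.MP_6bf1e5_an.Dy.Region

/-! Uniform bounds for the Galerkin system when `ρ^2 L ≤ 1`: the solution is split into a small
part and a nonnegative part `Q`, whose entropy is controlled. -/

namespace Pool.Agent.Work.MP_6bf1e5_an.En

open Set Filter Topology Pool.Agent.Work.MP_6bf1e5_an.Dy

noncomputable section

def aa (η q : ℝ) : ℝ := 8*η^3*q / (4*η^2 + q^2)

theorem aa_nonneg {η q : ℝ} (hη : 0 < η) (hq : 0 ≤ q) : 0 ≤ aa η q := by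
  unfold aa; positivity

theorem aa_le {η q : ℝ} (hη : 0 < η) (hq : 0 ≤ q) : aa η q ≤ 2*η*q := by
  unfold aa
  rw [div_le_iff₀ (by positivity)]
  have : 0 ≤ η*q^3 := by positivity
  linarith

theorem aa_le' {η : ℝ} (hη : 0 < η) (q : ℝ) : aa η q ≤ 2*η^2 := by
  unfold aa
  rw [div_le_iff₀ (by positivity)]
  have : 0 ≤ η^2*(2*η - q)^2 := by positivity
  linarith

theorem aa_ge {η : ℝ} (hη : 0 < η) (q : ℝ) : q*(2*η - q) ≤ aa η q := by
  unfold aa
  rw [le_div_iff₀ (by positivity)]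
  have : 0 ≤ q^2*((η - q)^2 + 3*η^2) := by positivity
  linarith

/-- The source term of the nonnegative part. -/
def th (ρ η v : ℝ) (k : ℕ) (Y Q : ℕ → ℝ) (n : ℕ) : ℝ :=
  ρ * (Q (n-1) * (2 * Y (n-1) - Q (n-1)) + aa η (Q (n-1))) + η/8/v^n
    + if n = k+1 then ρ * Y k^2 else 0

def extI (a N : ℕ) (v : Finset.Icc a N → ℝ) (n : ℕ) : ℝ :=
  if h : n ∈ Finset.Icc a N then v ⟨n, h⟩ else 0

theorem contDiff_extI {V : Type*} [NormedAddCommGroup V] [NormedSpace ℝ V] {a N : ℕ}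
    {p : V → Finset.Icc a N → ℝ} (hp : ContDiff ℝ 1 p) (n : ℕ) :
    ContDiff ℝ 1 (fun v => extI a N (p v) n) := by
  unfold extI
  by_cases h : n ∈ Finset.Icc a N
  · simp only [h, dif_pos]
    exact contDiff_pi.1 hp _
  · simp only [h, dif_neg, not_false_eq_true]
    exact contDiff_const

theorem exists_split (ν L ρ v : ℝ) {η : ℝ} (hη : 0 < η) (k : ℕ) (y : ℕ → ℝ) (f : ℝ → ℕ → ℝ)
    (hf : ∀ n, ContinuousOn (fun t => f t n) (Ici 0)) {R : ℝ} (hR : 0 ≤ R) (N : ℕ) :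
    ∃ (Y Q : ℝ → ℕ → ℝ) (c : ℝ → ℝ), (∀ n, 1 ≤ n → n ≤ N → Y 0 n = y n) ∧ (∀ t, Y t 0 = 0) ∧
      (∀ t n, N < n → Y t n = 0) ∧ (∀ n, Q 0 n = 0) ∧ (∀ t n, n ≤ k ∨ N < n → Q t n = 0) ∧
      (∀ t ∈ Icc (0:ℝ) N, ∀ n, 1 ≤ n → n ≤ N →
        HasDerivWithinAt (fun s => Y s n) (c t * FF ν L ρ (Y t) (f t) n) (Ici 0) t) ∧
      (∀ t ∈ Icc (0:ℝ) N, ∀ n, k < n → n ≤ N → HasDerivWithinAt (fun s => Q s n)
        (c t * (ν * L^n * (th ρ η v k (Y t) (Q t) n - Q t n * (1 + Y t (n+1))))) (Ici 0) t) ∧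
      ∀ t ∈ Icc (0:ℝ) N, (∀ n, |Y t n| ≤ R) → (∀ n, |Q t n| ≤ R) → c t = 1 := by
  have h1 := contDiff_extI (V := (Finset.Icc 1 N → ℝ) × (Finset.Icc (k+1) N → ℝ)) contDiff_fst
  have h2 := contDiff_extI (V := (Finset.Icc 1 N → ℝ) × (Finset.Icc (k+1) N → ℝ)) contDiff_snd
  obtain ⟨α, c, h0, hα⟩ := exists_cut (V := (Finset.Icc 1 N → ℝ) × (Finset.Icc (k+1) N → ℝ))
    (fun p => (fun i => FF ν L ρ (extI 1 N p.1) 0 i, fun i => ν * L^(i:ℕ) *
      (th ρ η v k (extI 1 N p.1) (extI (k+1) N p.2) i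
        - extI (k+1) N p.2 i * (1 + extI 1 N p.1 (i+1)))))
    (ContDiff.prodMk (contDiff_pi.2 fun i => by
      unfold FF DD
      exact contDiff_const.mul ((((contDiff_const.mul ((h1 _).pow 2)).sub
        ((h1 _).mul (h1 _))).sub (h1 _)).add contDiff_const)) (contDiff_pi.2 fun i => by
      unfold th aa
      refine contDiff_const.mul ((((contDiff_const.mul (((h2 _).mul ((contDiff_const.mul (h1 _)).sub
        (h2 _))).add ((contDiff_const.mul (h2 _)).div (contDiff_const.add ((h2 _).pow 2))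
          fun x => by positivity))).add contDiff_const).add ?_).sub
            ((h2 _).mul (contDiff_const.add (h1 _))))
      split_ifs
      · exact contDiff_const.mul ((h1 _).pow 2)
      · exact contDiff_const))
    (fun t => (fun i => ν * L^(i:ℕ) * f t i, 0))
    (ContinuousOn.prodMk (continuousOn_pi.2 fun i => continuousOn_const.mul (hf i))
      continuousOn_const) hR (fun i => y i, 0) (T := N) (Nat.cast_nonneg N)
  refine ⟨fun t => extI 1 N (α t).1, fun t => extI (k+1) N (α t).2, c, fun n h1 h2 => ?_,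
    fun t => by simp [extI], fun t n hn => by simp [extI, not_le.2 hn],
    fun n => by simp [extI, h0], fun t n hn => dif_neg (by rw [Finset.mem_Icc]; omega),
    fun t ht n h1 h2 => ?_, fun t ht n h1 h2 => ?_, fun t ht h h' => ?_⟩
  · simp [extI, h0, h1, h2]
  · have hn : n ∈ Finset.Icc 1 N := Finset.mem_Icc.2 ⟨h1, h2⟩
    have := hasDerivWithinAt_pi.1 (hα t ht).1.fst ⟨n, hn⟩
    have h3 : (fun s => extI 1 N (α s).1 n) = fun s => (α s).1 ⟨n, hn⟩ := by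
      funext s; simp [extI, hn, -Finset.mem_Icc]
    rw [h3]
    refine this.congr_deriv ?_
    simp only [Prod.smul_fst, Prod.fst_add, Pi.smul_apply, Pi.add_apply, smul_eq_mul, FF, DD,
      Pi.zero_apply]
    ring
  · have hn : n ∈ Finset.Icc (k+1) N := Finset.mem_Icc.2 ⟨h1, h2⟩
    have := hasDerivWithinAt_pi.1 (hα t ht).1.snd ⟨n, hn⟩
    have h3 : (fun s => extI (k+1) N (α s).2 n) = fun s => (α s).2 ⟨n, hn⟩ := by
      funext s; simp [extI, hn, -Finset.mem_Icc]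
    rw [h3]
    refine this.congr_deriv ?_
    simp only [Prod.smul_snd, Prod.snd_add, Pi.smul_apply, smul_eq_mul, add_zero]
  · refine (hα t ht).2 (norm_prod_le_iff.2 ⟨(pi_norm_le_iff_of_nonneg hR).2 fun i => ?_,
      (pi_norm_le_iff_of_nonneg hR).2 fun i => ?_⟩)
    · simpa [extI] using h i
    · simpa [extI] using h' i

theorem inv_32 {ι : Type*} (S : Finset ι) (g1 g1' g2 g2' g3 g3' : ι → ℝ → ℝ)
    (g4 g4' g5 g5' : ℝ → ℝ) {a b : ℝ}
    (hd : ∀ t ∈ Icc a b, (∀ i ∈ S, HasDerivWithinAt (g1 i) (g1' i t) (Ici a) t ∧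
      HasDerivWithinAt (g2 i) (g2' i t) (Ici a) t ∧ HasDerivWithinAt (g3 i) (g3' i t) (Ici a) t) ∧
      HasDerivWithinAt g4 (g4' t) (Ici a) t ∧ HasDerivWithinAt g5 (g5' t) (Ici a) t)
    (h0 : (∀ i ∈ S, 0 ≤ g1 i a ∧ 0 ≤ g2 i a ∧ 0 ≤ g3 i a) ∧ 0 ≤ g4 a ∧ 0 ≤ g5 a)
    (hs : ∀ t ∈ Icc a b, (∀ i ∈ S, 0 ≤ g1 i t ∧ 0 ≤ g2 i t ∧ 0 ≤ g3 i t) → 0 ≤ g4 t → 0 ≤ g5 t →
      (∀ i ∈ S, (g1 i t = 0 → 0 < g1' i t) ∧ (g2 i t = 0 → 0 < g2' i t) ∧
        (g3 i t = 0 → 0 < g3' i t)) ∧ (g4 t = 0 → 0 < g4' t) ∧ (g5 t = 0 → 0 < g5' t)) :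
    ∀ t ∈ Icc a b, (∀ i ∈ S, 0 ≤ g1 i t ∧ 0 ≤ g2 i t ∧ 0 ≤ g3 i t) ∧ 0 ≤ g4 t ∧ 0 ≤ g5 t := by
  intro t ht
  have := inv_two (S ×ˢ (Finset.univ : Finset (Fin 3))) (Finset.univ : Finset (Fin 2))
    (fun p => ![g1, g2, g3] p.2 p.1) (fun p => ![g1', g2', g3'] p.2 p.1) ![g4, g5] ![g4', g5']
    (a := a) (b := b)
    (by
      simp only [Finset.mem_product, Finset.mem_univ, and_true, Prod.forall, Fin.forall_fin_succ]
      exact fun i => ⟨fun h s hs => ((hd s hs).1 i h).1, fun h s hs => ((hd s hs).1 i h).2.1,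
        fun h s hs => ((hd s hs).1 i h).2.2, fun j => j.elim0⟩)
    (by
      simp only [Finset.mem_univ, true_imp_iff, Fin.forall_fin_two]
      exact ⟨fun s hs => (hd s hs).2.1, fun s hs => (hd s hs).2.2⟩)
    (by simpa [Fin.forall_fin_succ, imp_and] using h0.1)
    (by simpa [Fin.forall_fin_succ] using h0.2)
    (fun s hs' h h' => by
      have := hs s hs' (by simpa [Fin.forall_fin_succ, imp_and] using h)
        (h' 0 (by simp)) (h' 1 (by simp))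
      simpa [Fin.forall_fin_succ, imp_and] using this) t ht
  simpa [Fin.forall_fin_succ, imp_and] using this

theorem step {ρ η v M : ℝ} {k N : ℕ} {Y Q g : ℕ → ℝ} (hρ0 : 0 < ρ) (hρ1 : ρ ≤ 1) (hη : 0 < η)
    (hη1 : η ≤ 1/200) (hv : 1 ≤ v)
    (hQ0 : ∀ n, n ≤ k ∨ N < n → Q n = 0) (hQ : ∀ n, 0 ≤ Q n)
    (hS : ∀ n, k < n → |Y n - Q n| ≤ η) (hM : |Y k| ≤ M) (hQN : Q N ≤ η)
    (hg : ∀ n, k < n → |g n| ≤ η/4) :
    (∀ n, k < n → 0 < th ρ η v k Y Q n ∧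
      (Y n - Q n = η → DD ρ (Y (n-1)) (Y n) (Y (n+1)) (g n)
        < th ρ η v k Y Q n - Q n * (1 + Y (n+1))) ∧
      (Y n - Q n = -η → th ρ η v k Y Q n - Q n * (1 + Y (n+1))
        < DD ρ (Y (n-1)) (Y n) (Y (n+1)) (g n))) ∧
    ∀ n, |(if k < n ∧ n ≤ N then th ρ η v k Y Q n - Q n * (1 + Y (n+1)) else 0)
      - (ρ * Q (n-1)^2 - Q n * Q (n+1) - Q n)|
        ≤ 4*η * (Q (n-1) + Q n) + (M^2 * v^(k+1) + η/8) / v^n := by
  have hz : ∀ n, 0 < η/8/v^n := fun n => by positivity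
  have hz' : ∀ n, η/8/v^n ≤ η/8 := fun n => div_le_self (by positivity) (one_le_pow₀ hv)
  have key : ∀ n, k < n → ∃ a b : ℝ, th ρ η v k Y Q n = ρ * Q (n-1)^2 + a + η/8/v^n ∧
      ρ * Y (n-1)^2 = th ρ η v k Y Q n + b - η/8/v^n ∧ 0 ≤ ρ * Q (n-1)^2 + a ∧
      |a| ≤ 4*η*Q (n-1) + M^2 * v^(k+1) / v^n ∧ -(2*η^2) ≤ b ∧ b ≤ η^2 := by
    intro n hn
    rcases eq_or_ne n (k+1) with rfl | h
    · have h1 := hQ0 k (Or.inl le_rfl)
      have h2 : Y k^2 ≤ M^2 := sq_le_sq' (abs_le.1 hM).1 (abs_le.1 hM).2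
      refine ⟨ρ * Y k^2, 0, by simp [th, h1, aa, add_comm], by simp [th, h1, aa], by positivity, ?_,
        by nlinarith, by positivity⟩
      rw [Nat.add_sub_cancel, h1, mul_div_cancel_right₀ _ (by positivity), abs_of_nonneg (by positivity)]
      nlinarith [sq_nonneg (Y k)]
    · obtain ⟨h1, h2⟩ := abs_le.1 (hS (n-1) (by omega))
      have h3 := hQ (n-1)
      have h4 := aa_nonneg hη h3
      have h5 := aa_le hη h3
      have h6 := aa_le' hη (Q (n-1))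
      have h7 := aa_ge hη (Q (n-1))
      have h8 := mul_le_mul_of_nonneg_left h1 h3
      have h9 := mul_le_mul_of_nonneg_left h2 h3
      have h10 : (Y (n-1) - Q (n-1))^2 ≤ η^2 := sq_le_sq' h1 h2
      have h11 : 0 ≤ M^2 * v^(k+1) / v^n := by positivity
      have h12 : |2 * Q (n-1) * (Y (n-1) - Q (n-1)) + aa η (Q (n-1))| ≤ 4*η*Q (n-1) :=
        abs_le.2 ⟨by nlinarith, by nlinarith⟩
      have h13 := sq_nonneg (Y (n-1) - Q (n-1))
      refine ⟨ρ * (2 * Q (n-1) * (Y (n-1) - Q (n-1)) + aa η (Q (n-1))),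
        ρ * ((Y (n-1) - Q (n-1))^2 - aa η (Q (n-1))), by simp only [th, if_neg h]; ring,
        by simp only [th, if_neg h]; ring, ?_, ?_, by nlinarith, by nlinarith⟩
      · rw [← mul_add]
        exact mul_nonneg hρ0.le (by linarith)
      · rw [abs_mul, abs_of_pos hρ0]
        nlinarith [abs_nonneg (2 * Q (n-1) * (Y (n-1) - Q (n-1)) + aa η (Q (n-1)))]
  refine ⟨fun n hn => ?_, fun n => ?_⟩
  · obtain ⟨a, b, e1, e2, e3, -, e5, e6⟩ := key n hn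
    have h1 : -η ≤ Y (n+1) := by linarith [(abs_le.1 (hS (n+1) (by omega))).1, hQ (n+1)]
    have h2 := mul_le_mul_of_nonneg_left h1 hη.le
    have h3 := mul_le_mul_of_nonneg_left hη1 hη.le
    obtain ⟨h4, h5⟩ := abs_le.1 (hg n hn)
    have h6 := hz n
    have h7 := hz' n
    refine ⟨by linarith, fun h => ?_, fun h => ?_⟩
    · rw [DD, e2, show Y n = Q n + η by linarith]
      linarith
    · rw [DD, e2, show Y n = Q n - η by linarith]
      linarith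
  · have h1 := hQ n
    have h2 := hQ (n-1)
    have h3 : 0 ≤ (M^2 * v^(k+1) + η/8) / v^n := by positivity
    split_ifs with h
    · obtain ⟨a, b, e1, -, -, e4, -⟩ := key n h.1
      have h4 := abs_le.1 ((abs_mul (Q n) _).trans_le (mul_le_mul (abs_of_nonneg h1).le
        (hS (n+1) (by omega)) (abs_nonneg _) h1))
      have h5 := abs_le.1 e4
      have h6 := hz n
      have h7 : 0 ≤ η * Q n := by positivity
      rw [e1, add_div, abs_le]
      constructor <;> linarith [h4.1, h4.2, h5.1, h5.2]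
    · rw [hQ0 n (by omega)]
      rcases eq_or_ne n (N+1) with rfl | h'
      · simp only [Nat.add_sub_cancel, zero_mul, sub_zero, zero_sub, abs_neg, add_zero] at h2 ⊢
        rw [abs_of_nonneg (by positivity)]
        nlinarith [mul_le_mul_of_nonneg_left hQN h2, mul_nonneg hη.le h2, sq_nonneg (Q N)]
      · rw [hQ0 (n-1) (by omega)]
        simpa using h3

theorem gal_bound2 {ν L ρ Φ : ℝ} (hν : 0 < ν) (hL : 1 < L) (hL4 : L ≤ 4) (hρ0 : 0 < ρ)
    (hρ : ρ^2 * L ≤ 1) (y : ℕ → ℝ) (f : ℝ → ℕ → ℝ)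
    (hfc : ∀ n, ContinuousOn (fun t => f t n) (Ici 0))
    (hy : ∀ ε > 0, ∃ k, ∀ n, k ≤ n → |y n| ≤ ε)
    (hf : ∀ ε > 0, ∃ k, ∀ n, k ≤ n → ∀ t, 0 ≤ t → |f t n| ≤ ε)
    (hΦ : ∀ t, 0 ≤ t → ∀ n, |f t n| ≤ Φ) :
    ∃ (B : ℝ) (n0 : ℕ), ∀ N, n0 ≤ N → ∃ Y, Gal ν L ρ y f N Y ∧
      ∀ t ∈ Icc (0:ℝ) N, ∀ n, |Y t n| ≤ B ∧ (n0 ≤ n → |Y t n| ≤ 1/4) := by
  obtain ⟨P⟩ := exists_ent hL hL4
  have hw := P.hw
  have hc := P.hc
  have hC := P.hC
  have hρ1 : ρ ≤ 1 := by nlinarith [sq_nonneg ρ]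
  have hρu : ρ * L ≤ P.u := by
    refine (pow_le_pow_iff_left₀ (by positivity) P.hu0.le two_ne_zero).1 ?_
    nlinarith [P.hu]
  have hv : 1 < P.w*L := by nlinarith
  obtain ⟨η, hη, hη1, hη2⟩ : ∃ η, 0 < η ∧ η ≤ 1/200 ∧ 12*P.C*L^3*(4*η)*(P.w*L+4) ≤ P.c/2 := by
    have h1 : 0 ≤ 48*P.C*L^3*(P.w*L+4) := by positivity
    refine ⟨min (1/200) (P.c/2/(48*P.C*L^3*(P.w*L+4)+1)), by positivity, min_le_left _ _, ?_⟩
    have h2 := min_le_right (1/200) (P.c/2/(48*P.C*L^3*(P.w*L+4)+1))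
    have h3 : 0 < min (1/200) (P.c/2/(48*P.C*L^3*(P.w*L+4)+1)) := by positivity
    rw [le_div_iff₀ (by positivity)] at h2
    linarith
  obtain ⟨k1, hk1⟩ := hy η hη
  obtain ⟨k2, hk2⟩ := hf (η/4) (by positivity)
  obtain ⟨k, hk3, hk4, hk5⟩ : ∃ k, 3 ≤ k ∧ k1 ≤ k ∧ k2 ≤ k := ⟨3+k1+k2, by omega, by omega, by omega⟩
  have hq : 0 < L*ρ := by positivity
  obtain ⟨E, hE1, hE2⟩ : ∃ E, en (L*ρ) k y ≤ E ∧ 2 * ∑ n ∈ Finset.Icc 1 k, Φ^2 / ρ^n < E :=
    ⟨max _ (_ + 1), le_max_left _ _, lt_of_lt_of_le (lt_add_one _) (le_max_right _ _)⟩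
  have hE0 : 0 ≤ E := le_trans (by positivity) hE2.le
  obtain ⟨M, hM0, hM⟩ : ∃ M, 0 ≤ M ∧ ∀ Y : ℕ → ℝ, Y 0 = 0 → 0 ≤ E - en (L*ρ) k Y →
      ∀ n ≤ k, |Y n| ≤ M := by
    refine ⟨E * (max 1 (L*ρ))^k + 1, by positivity, fun Y h0 h n hn => ?_⟩
    rcases Nat.eq_zero_or_pos n with rfl | h1
    · rw [h0, abs_zero]; positivity
    have h2 := sq_le_en hq Y h1 hn
    have h3 : (L*ρ)^n ≤ (max 1 (L*ρ))^k :=
      (pow_le_pow_left₀ hq.le (le_max_right _ _) n).trans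
        (pow_le_pow_right₀ (le_max_left _ _) hn)
    have h4 : en (L*ρ) k Y * (L*ρ)^n ≤ E * (max 1 (L*ρ))^k :=
      mul_le_mul (by linarith) h3 (by positivity) hE0
    nlinarith [sq_nonneg (|Y n| - 1), sq_abs (Y n), abs_nonneg (Y n)]
  obtain ⟨K, hK⟩ : ∃ K, K = 4*P.C*L^3*((M^2 * (P.w*L)^(k+1) + η/8)^6/(4*η)^5) * (1 - (P.w*L)⁻¹)⁻¹ :=
    ⟨_, rfl⟩
  have hK0 : 0 ≤ K := by
    have := sub_pos.2 (inv_lt_one_of_one_lt₀ hv)
    rw [hK]; positivity
  obtain ⟨Hm, hHm⟩ : ∃ Hm, Hm = P.C * ((P.w*L+4) * (2*K/P.c)) + 1 := ⟨_, rfl⟩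
  have hHm0 : 0 < Hm := by rw [hHm]; positivity
  obtain ⟨n1, hn1⟩ := pow_unbounded_of_one_lt (Hm/(P.c*η^6)) hw
  refine ⟨M + 2 + Hm/P.c, k + 1 + n1, fun N hN => ?_⟩
  have hHc : 0 < Hm/P.c := by positivity
  obtain ⟨Y, Q, c, hi, hz, htop, hQi, hQ0, hode, hodeQ, hc1⟩ := exists_split ν L ρ (P.w*L) hη k y f hfc
    (R := M + 2 + Hm/P.c) (by positivity) N
  have hbd : ∀ t, (∀ n ∈ Finset.Icc (k+1) N, 0 ≤ η - (Y t n - Q t n) ∧ 0 ≤ η + (Y t n - Q t n) ∧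
      0 ≤ Q t n) → 0 ≤ E - en (L*ρ) k (Y t) → 0 ≤ Hm - P.H N (Q t) →
      (∀ n, 0 ≤ Q t n) ∧ (∀ n, k < n → |Y t n - Q t n| ≤ η) ∧ (∀ n, n1 ≤ n → Q t n ≤ η) ∧
      (∀ n, |Q t n| ≤ M + 2 + Hm/P.c) ∧
      ∀ n, |Y t n| ≤ M + 2 + Hm/P.c ∧ (k + 1 + n1 ≤ n → |Y t n| ≤ 1/4) := by
    intro t h1 h2 h3
    have a1 : ∀ n, 0 ≤ Q t n := fun n => by
      by_cases h : n ≤ k ∨ N < n
      · exact (hQ0 t n h).ge
      · exact (h1 n (Finset.mem_Icc.2 (by omega))).2.2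
    have a2 : ∀ n, k < n → |Y t n - Q t n| ≤ η := fun n hn => by
      rcases lt_or_ge N n with h | h
      · rw [htop t n h, hQ0 t n (Or.inr h), sub_zero, abs_zero]; exact hη.le
      · have := h1 n (Finset.mem_Icc.2 ⟨hn, h⟩)
        exact abs_le.2 ⟨by linarith [this.2.1], by linarith [this.1]⟩
    have a3 : ∀ n, P.c * (P.w^n * Q t n^6) ≤ Hm := fun n => by
      rcases lt_or_ge N n with h | h
      · rw [hQ0 t n (Or.inr h)]; simpa using hHm0.le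
      · linarith [P.coer a1 (fun n hn => hQ0 t n (Or.inl (by omega)))
          (fun n hn => hQ0 t n (Or.inr hn)) h]
    have a4 : ∀ n, n1 ≤ n → Q t n ≤ η := fun n hn => by
      refine le_of_not_gt fun h => ?_
      have b1 := hn1.trans_le (pow_le_pow_right₀ hw.le hn)
      rw [div_lt_iff₀ (by positivity)] at b1
      have b2 : P.c * (P.w^n * η^6) ≤ P.c * (P.w^n * Q t n^6) := by gcongr
      linarith [a3 n]
    have a5 : ∀ n, Q t n ≤ 1 + Hm/P.c := fun n => by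
      rcases le_total (Q t n) 1 with h | h
      · linarith
      · have b1 : P.c * (1 * Q t n) ≤ P.c * (P.w^n * Q t n^6) := by
          gcongr
          · exact one_le_pow₀ hw.le
          · exact le_self_pow₀ h (by norm_num)
        have b2 : Q t n ≤ Hm/P.c := by rw [le_div_iff₀ hc]; linarith [a3 n]
        linarith
    refine ⟨a1, a2, a4, fun n => by rw [abs_of_nonneg (a1 n)]; linarith [a5 n], fun n => ?_⟩
    rcases le_or_gt n k with h | h
    · exact ⟨by linarith [hM (Y t) (hz t) h2 n h], fun h' => by omega⟩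
    · obtain ⟨b1, b2⟩ := abs_le.1 (a2 n h)
      exact ⟨abs_le.2 ⟨by linarith [a1 n], by linarith [a5 n]⟩,
        fun h' => abs_le.2 ⟨by linarith [a1 n], by linarith [a4 n (by omega)]⟩⟩
  let W : ℝ → ℕ → ℝ := fun t n => th ρ η (P.w*L) k (Y t) (Q t) n - Q t n * (1 + Y t (n+1))
  have key := inv_32 (Finset.Icc (k+1) N)
    (fun n t => η - (Y t n - Q t n))
    (fun n t => -(c t * FF ν L ρ (Y t) (f t) n - c t * (ν * L^n * W t n)))
    (fun n t => η + (Y t n - Q t n))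
    (fun n t => c t * FF ν L ρ (Y t) (f t) n - c t * (ν * L^n * W t n))
    (fun n t => Q t n) (fun n t => c t * (ν * L^n * W t n))
    (fun t => E - en (L*ρ) k (Y t))
    (fun t => -∑ n ∈ Finset.Icc 1 k, 2 * Y t n * (c t * FF ν L ρ (Y t) (f t) n) / (L*ρ)^n)
    (fun t => Hm - P.H N (Q t))
    (fun t => -(c t * ν * P.dH N (Q t) fun n => if k < n ∧ n ≤ N then W t n else 0))
    (a := 0) (b := N)
    (fun t ht => ⟨fun n hn => by
        obtain ⟨h1, h2⟩ := Finset.mem_Icc.1 hn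
        have d1 := hode t ht n (by omega) h2
        have d2 := hodeQ t ht n h1 h2
        exact ⟨(d1.sub d2).const_sub _, (d1.sub d2).const_add _, d2⟩, by
      unfold en
      refine HasDerivWithinAt.const_sub _ (HasDerivWithinAt.fun_sum fun n hn => ?_)
      obtain ⟨h1, h2⟩ := Finset.mem_Icc.1 hn
      refine (((hode t ht n h1 (by omega)).pow 2).div_const ((L*ρ)^n)).congr_deriv ?_
      simp, by
      refine HasDerivWithinAt.const_sub _ (P.deriv N fun n => ?_)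
      split_ifs with h
      · exact (hodeQ t ht n h.1 h.2).congr_deriv (by ring)
      · simpa only [hQ0 _ n (by omega), mul_zero] using hasDerivWithinAt_const t (Ici 0) (0:ℝ)⟩)
    ⟨fun n hn => by
      obtain ⟨h1, h2⟩ := Finset.mem_Icc.1 hn
      have := abs_le.1 (hk1 n (by omega))
      simp only [hQi, hi n (by omega) h2]
      exact ⟨by linarith, by linarith, le_rfl⟩, by
      have : en (L*ρ) k (Y 0) = en (L*ρ) k y := Finset.sum_congr rfl fun n hn => by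
        obtain ⟨h1, h2⟩ := Finset.mem_Icc.1 hn
        rw [hi n h1 (by omega)]
      linarith, by
      have := P.H_le hL.le (N := N) (Q := Q 0) (fun n => (hQi n).ge) (hQi 0) fun n _ => hQi n
      simp only [hQi] at this
      norm_num at this
      linarith⟩
    (fun t ht h1 h2 h3 => by
      obtain ⟨a1, a2, a3, a4, a5⟩ := hbd t h1 h2 h3
      have hc1 := hc1 t ht (fun n => (a5 n).1) a4
      obtain ⟨s1, s2⟩ := step (g := f t) hρ0 hρ1 hη hη1 hv.le (hQ0 t) a1 a2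
        (hM (Y t) (hz t) h2 k le_rfl) (a3 N (by omega)) fun n hn => hk2 n (by omega) t ht.1
      simp only [hc1, one_mul]
      refine ⟨fun n hn => ?_, fun h6 => neg_pos.2 ?_, fun h6 => neg_pos.2 ?_⟩
      · obtain ⟨b1, b2, b3⟩ := s1 n (Finset.mem_Icc.1 hn).1
        have hR : 0 < ν * L^n := by positivity
        unfold FF
        refine ⟨fun h => ?_, fun h => ?_, fun h => mul_pos hR ?_⟩
        · linarith [mul_lt_mul_of_pos_left (b2 (by linarith)) hR]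
        · linarith [mul_lt_mul_of_pos_left (b3 (by linarith)) hR]
        · simpa [W, h] using b1
      · exact flux_neg hν hL.le hρ0 (Y t) (f t) (hz t) (by omega)
          (by linarith [(abs_le.1 (a2 (k+1) (by omega))).1, a1 (k+1)]) (hΦ t ht.1) (by linarith)
      · refine mul_neg_of_pos_of_neg hν ?_
        have b1 := P.dH_le hL.le hρ0.le hρu (by positivity : 0 < 4*η) (by positivity) a1
          (fun n hn => hQ0 t n (Or.inl (by omega))) (fun n hn => hQ0 t n (Or.inr hn)) s2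
        have b2 := P.H_le hL.le a1 (hQ0 t 0 (Or.inl (by omega))) fun n hn => hQ0 t n (Or.inr hn)
        rw [← hK] at b1
        have b3 : 0 ≤ ∑ n ∈ Finset.range (N+1), (P.w*L)^n * Q t n^6 := by positivity
        generalize ∑ n ∈ Finset.range (N+1), (P.w*L)^n * Q t n^6 = X at b1 b2 b3
        have b4 : 2*K/P.c < X := by
          refine lt_of_not_ge fun h => ?_
          have : P.C * ((P.w*L+4) * X) ≤ P.C * ((P.w*L+4) * (2*K/P.c)) := by gcongr
          linarith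
        rw [div_lt_iff₀ hc] at b4
        have b5 := mul_le_mul_of_nonneg_right hη2 b3
        exact b1.trans_lt (by linarith))
  refine ⟨Y, ⟨hi, hz, fun t ht n h1 h2 => ?_⟩, fun t ht => ?_⟩
  · obtain ⟨h3, h4, h5⟩ := key t ht
    obtain ⟨-, -, -, a4, a5⟩ := hbd t h3 h4 h5
    simpa [hc1 t ht (fun n => (a5 n).1) a4] using hode t ht n h1 h2
  · obtain ⟨h3, h4, h5⟩ := key t ht
    exact (hbd t h3 h4 h5).2.2.2.2

end

end Pool.Agent.Work.MP_6bf1e5_an.En
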