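import Pool.Agent.Work.MP_6bf1e5_an.En.CertA1
import Pool.Agent.Work.MP_6bf1e5_an.En.CertA2
import Pool.Agent.Work.MP_6bf1e5_an.En.CertB1

/-! Local polynomial entropies of degree six for the dyadic model, for every `1 < L ≤ 4`. -/

namespace Pool.Agent.Work.MP_6bf1e5_an.En

set_option linter.unusedSimpArgs false

noncomputable section

/-- A local entropy `Φ` with its partial derivatives `D0, …, D3` and fluxes `T, Z, Θ, Ω`. -/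
structure Ent (L : ℝ) where
  (u w c C : ℝ)
  (Φ D0 D1 D2 D3 T Z Θ Ω : ℝ → ℝ → ℝ → ℝ → ℝ)
  hu0 : 0 < u
  hu : L ≤ u^2
  hw : 1 < w
  hc : 0 < c
  hC : 0 ≤ C
  chain : ∀ {x y z v : ℝ → ℝ} {x' y' z' v' t : ℝ} {s : Set ℝ}, HasDerivWithinAt x x' s t →
    HasDerivWithinAt y y' s t → HasDerivWithinAt z z' s t → HasDerivWithinAt v v' s t →
    HasDerivWithinAt (fun t => Φ (x t) (y t) (z t) (v t))
      (D0 (x t) (y t) (z t) (v t) * x' + D1 (x t) (y t) (z t) (v t) * y'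
        + D2 (x t) (y t) (z t) (v t) * z' + D3 (x t) (y t) (z t) (v t) * v') s t
  bd : ∀ m x y z v : ℝ, |x| ≤ m → |y| ≤ m → |z| ≤ m → |v| ≤ m → |Φ x y z v| ≤ C * m^6 ∧
    |D0 x y z v| ≤ C * m^5 ∧ |D1 x y z v| ≤ C * m^5 ∧ |D2 x y z v| ≤ C * m^5 ∧
    |D3 x y z v| ≤ C * m^5
  hT0 : T 0 0 0 0 = 0
  hZ0 : Z 0 0 0 0 = 0
  hΘ0 : Θ 0 0 0 0 = 0
  hΩ0 : Ω 0 0 0 0 = 0
  hG : ∀ y0 y1 y2 y3 y4 : ℝ, 0 ≤ y0 → 0 ≤ y1 → 0 ≤ y2 → 0 ≤ y3 → 0 ≤ y4 →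
    w*u*D0 y1 y2 y3 y4*y0^2 + u*D1 y0 y1 y2 y3*y0^2 + L*u*D2 y0 y1 y2 y3*y1^2
      + L^2*u*D3 y0 y1 y2 y3*y2^2
      - (D0 y0 y1 y2 y3*(y0*y1) + L*D1 y0 y1 y2 y3*(y1*y2) + L^2*D2 y0 y1 y2 y3*(y2*y3)
        + L^3*D3 y0 y1 y2 y3*(y3*y4)) ≤ T y0 y1 y2 y3 - w*L*T y1 y2 y3 y4
  hZ : ∀ y0 y1 y2 y3 y4 : ℝ, 0 ≤ y0 → 0 ≤ y1 → 0 ≤ y2 → 0 ≤ y3 → 0 ≤ y4 →
    -(D0 y0 y1 y2 y3*(y0*y1) + L*D1 y0 y1 y2 y3*(y1*y2) + L^2*D2 y0 y1 y2 y3*(y2*y3)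
        + L^3*D3 y0 y1 y2 y3*(y3*y4)) ≤ Z y0 y1 y2 y3 - w*L*Z y1 y2 y3 y4
  hΘ : ∀ y0 y1 y2 y3 y4 : ℝ, 0 ≤ y0 → 0 ≤ y1 → 0 ≤ y2 → 0 ≤ y3 → 0 ≤ y4 →
    c*y0^6 - (D0 y0 y1 y2 y3*y0 + L*D1 y0 y1 y2 y3*y1 + L^2*D2 y0 y1 y2 y3*y2
        + L^3*D3 y0 y1 y2 y3*y3) ≤ Θ y0 y1 y2 y3 - w*L*Θ y1 y2 y3 y4
  hΩ : ∀ y0 y1 y2 y3 y4 : ℝ, 0 ≤ y0 → 0 ≤ y1 → 0 ≤ y2 → 0 ≤ y3 → 0 ≤ y4 →
    c*y0^6 - Φ y0 y1 y2 y3 ≤ Ω y0 y1 y2 y3 - w*Ω y1 y2 y3 y4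

def c2 (a b : ℝ) (P0 P1 : List Tm) (x y z v : ℝ) : ℝ := a * ev P0 x y z v + b * ev P1 x y z v

def c3 (a b : ℝ) (P0 P1 P2 : List Tm) (x y z v : ℝ) : ℝ :=
  a^2 * ev P0 x y z v + a * b * ev P1 x y z v + b^2 * ev P2 x y z v

theorem c2_bound {n : ℕ} {P0 P1 : List Tm} (h0 : homL n P0 = true) (h1 : homL n P1 = true)
    (a b : ℝ) : ∃ C, 0 ≤ C ∧ ∀ m x y z v : ℝ, |x| ≤ m → |y| ≤ m → |z| ≤ m → |v| ≤ m →
      |c2 a b P0 P1 x y z v| ≤ C * m^n := by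
  obtain ⟨C0, hC0, b0⟩ := ev_bound h0
  obtain ⟨C1, hC1, b1⟩ := ev_bound h1
  refine ⟨|a| * C0 + |b| * C1, by positivity, fun m x y z v hx hy hz hv => ?_⟩
  refine (abs_add_le _ _).trans ?_
  rw [abs_mul, abs_mul, add_mul, mul_assoc, mul_assoc]
  exact add_le_add (mul_le_mul_of_nonneg_left (b0 m x y z v hx hy hz hv) (abs_nonneg a))
    (mul_le_mul_of_nonneg_left (b1 m x y z v hx hy hz hv) (abs_nonneg b))

def homA (P0 P1 T0 T1 T2 Z0 Z1 Z2 D0 D1 D2 C0 C1 : List Tm) : Bool :=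
  [P0, P1, D0, D1, D2, C0, C1].all (homL 6) && [T0, T1, T2, Z0, Z1, Z2].all (homL 7)
    && [d0 P0, d0 P1, d1 P0, d1 P1, d2 P0, d2 P1, d3 P0, d3 P1].all (homL 5)

theorem ent_of {P0 P1 T0 T1 T2 Z0 Z1 Z2 D0 D1 D2 C0 C1 : List Tm}
    (h : homA P0 P1 T0 T1 T2 Z0 Z1 Z2 D0 D1 D2 C0 C1 = true) {a b L u w c : ℝ}
    (hu0 : 0 < u) (hu : L ≤ u^2) (hw : 1 < w) (hc : 0 < c)
    (hG : ∀ y0 y1 y2 y3 y4 : ℝ, 0 ≤ y0 → 0 ≤ y1 → 0 ≤ y2 → 0 ≤ y3 → 0 ≤ y4 →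
      w*u*c2 a b (d0 P0) (d0 P1) y1 y2 y3 y4*y0^2 + u*c2 a b (d1 P0) (d1 P1) y0 y1 y2 y3*y0^2
        + L*u*c2 a b (d2 P0) (d2 P1) y0 y1 y2 y3*y1^2
        + L^2*u*c2 a b (d3 P0) (d3 P1) y0 y1 y2 y3*y2^2
        - (c2 a b (d0 P0) (d0 P1) y0 y1 y2 y3*(y0*y1) + L*c2 a b (d1 P0) (d1 P1) y0 y1 y2 y3*(y1*y2)
          + L^2*c2 a b (d2 P0) (d2 P1) y0 y1 y2 y3*(y2*y3)
          + L^3*c2 a b (d3 P0) (d3 P1) y0 y1 y2 y3*(y3*y4))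
        ≤ c3 a b T0 T1 T2 y0 y1 y2 y3 - w*L*c3 a b T0 T1 T2 y1 y2 y3 y4)
    (hZ : ∀ y0 y1 y2 y3 y4 : ℝ, 0 ≤ y0 → 0 ≤ y1 → 0 ≤ y2 → 0 ≤ y3 → 0 ≤ y4 →
      -(c2 a b (d0 P0) (d0 P1) y0 y1 y2 y3*(y0*y1) + L*c2 a b (d1 P0) (d1 P1) y0 y1 y2 y3*(y1*y2)
          + L^2*c2 a b (d2 P0) (d2 P1) y0 y1 y2 y3*(y2*y3)
          + L^3*c2 a b (d3 P0) (d3 P1) y0 y1 y2 y3*(y3*y4))
        ≤ c3 a b Z0 Z1 Z2 y0 y1 y2 y3 - w*L*c3 a b Z0 Z1 Z2 y1 y2 y3 y4)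
    (hΘ : ∀ y0 y1 y2 y3 y4 : ℝ, 0 ≤ y0 → 0 ≤ y1 → 0 ≤ y2 → 0 ≤ y3 → 0 ≤ y4 →
      c*y0^6 - (c2 a b (d0 P0) (d0 P1) y0 y1 y2 y3*y0 + L*c2 a b (d1 P0) (d1 P1) y0 y1 y2 y3*y1
          + L^2*c2 a b (d2 P0) (d2 P1) y0 y1 y2 y3*y2 + L^3*c2 a b (d3 P0) (d3 P1) y0 y1 y2 y3*y3)
        ≤ c3 a b D0 D1 D2 y0 y1 y2 y3 - w*L*c3 a b D0 D1 D2 y1 y2 y3 y4)
    (hΩ : ∀ y0 y1 y2 y3 y4 : ℝ, 0 ≤ y0 → 0 ≤ y1 → 0 ≤ y2 → 0 ≤ y3 → 0 ≤ y4 →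
      c*y0^6 - c2 a b P0 P1 y0 y1 y2 y3
        ≤ c2 a b C0 C1 y0 y1 y2 y3 - w*c2 a b C0 C1 y1 y2 y3 y4) : Nonempty (Ent L) := by
  simp only [homA, List.all_cons, List.all_nil, Bool.and_true, Bool.and_eq_true] at h
  obtain ⟨⟨⟨p0, p1, q0, q1, q2, r0, r1⟩, t0, t1, t2, z0, z1, z2⟩, e0, f0, e1, f1, e2, f2, e3, f3⟩ := h
  obtain ⟨K, hK, bK⟩ := c2_bound p0 p1 a b
  obtain ⟨K0, hK0, b0⟩ := c2_bound e0 f0 a b
  obtain ⟨K1, hK1, b1⟩ := c2_bound e1 f1 a b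
  obtain ⟨K2, hK2, b2⟩ := c2_bound e2 f2 a b
  obtain ⟨K3, hK3, b3⟩ := c2_bound e3 f3 a b
  refine ⟨⟨u, w, c, K + K0 + K1 + K2 + K3, c2 a b P0 P1, c2 a b (d0 P0) (d0 P1),
    c2 a b (d1 P0) (d1 P1), c2 a b (d2 P0) (d2 P1), c2 a b (d3 P0) (d3 P1), c3 a b T0 T1 T2,
    c3 a b Z0 Z1 Z2, c3 a b D0 D1 D2, c2 a b C0 C1, hu0, hu, hw, hc, by positivity,
    fun hx hy hz hv => ?_, fun m x y z v hx hy hz hv => ?_,
    by simp [c3, ev_zero t0, ev_zero t1, ev_zero t2],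
    by simp [c3, ev_zero z0, ev_zero z1, ev_zero z2],
    by simp [c3, ev_zero q0, ev_zero q1, ev_zero q2], by simp [c2, ev_zero r0, ev_zero r1],
    hG, hZ, hΘ, hΩ⟩⟩
  · unfold c2
    exact (((ev_deriv P0 hx hy hz hv).const_mul a).fun_add
      ((ev_deriv P1 hx hy hz hv).const_mul b)).congr_deriv (by ring)
  · have hm : 0 ≤ m := (abs_nonneg x).trans hx
    exact ⟨(bK m x y z v hx hy hz hv).trans (by gcongr; linarith),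
      (b0 m x y z v hx hy hz hv).trans (by gcongr; linarith),
      (b1 m x y z v hx hy hz hv).trans (by gcongr; linarith),
      (b2 m x y z v hx hy hz hv).trans (by gcongr; linarith),
      (b3 m x y z v hx hy hz hv).trans (by gcongr; linarith)⟩

theorem comb5 {a b g0 g1 g2 g3 g4 x0 x1 x2 x3 x4 : ℝ} (ha : 0 ≤ a) (hb : 0 ≤ b) (h0 : 0 ≤ x0)
    (h1 : 0 ≤ x1) (h2 : 0 ≤ x2) (h3 : 0 ≤ x3) (h4 : 0 ≤ x4) (k0 : 0 ≤ g0) (k1 : 0 ≤ g1)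
    (k2 : 0 ≤ g2) (k3 : 0 ≤ g3) (k4 : 0 ≤ g4) :
    0 ≤ g0*a^4*x0 + g1*a^3*b*x1 + g2*a^2*b^2*x2 + g3*a*b^3*x3 + g4*b^4*x4 := by positivity

theorem comb3 {a b g0 g1 g2 x0 x1 x2 : ℝ} (ha : 0 ≤ a) (hb : 0 ≤ b) (h0 : 0 ≤ x0)
    (h1 : 0 ≤ x1) (h2 : 0 ≤ x2) (k0 : 0 ≤ g0) (k1 : 0 ≤ g1) (k2 : 0 ≤ g2) :
    0 ≤ g0*a^2*x0 + g1*a*b*x1 + g2*b^2*x2 := by positivity

theorem ahom : homA aP0 aP1 aT0 aT1 aT2 aZ0 aZ1 aZ2 aD0 aD1 aD2 aC0 aC1 = true := by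
  decide +kernel

theorem ent_a {a b : ℝ} (ha : 0 ≤ a) (hb : 0 < b) (hab : 256*(a+b) = 1) :
    Nonempty (Ent (256*a + 384*b)) := by
  have hb0 : 0 ≤ b := by linarith
  obtain rfl : a = 1/256 - b := by linarith
  refine ent_of ahom (a := 1/256 - b) (b := b) (u := 256*(1/256 - b) + 320*b)
    (w := 256*(1/256 - b) + 257*b) (c := 29360) (by linarith) (by nlinarith [sq_nonneg b]) (by linarith)
    (by norm_num) ?_ ?_ ?_ ?_ <;> intro y0 y1 y2 y3 y4 h0 h1 h2 h3 h4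
  · have := comb5 (g0 := 65536) (g1 := 256) (g2 := 128) (g3 := 128) (g4 := 128) ha hb0
      (chk_sound acG0 h0 h1 h2 h3 h4) (chk_sound acG1 h0 h1 h2 h3 h4) (chk_sound acG2 h0 h1 h2 h3 h4) (chk_sound acG3 h0 h1 h2 h3 h4) (chk_sound acG4 h0 h1 h2 h3 h4)
      (by norm_num) (by norm_num) (by norm_num) (by norm_num) (by norm_num)
    simp only [agG0, agG1, agG2, agG3, agG4, f7, tl, nl, dm, E.evR, pE_ev, pS_ev] at this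
    push_cast at this
    rw [← sub_nonneg]
    refine this.trans_eq ?_
    simp only [c2, c3]
    ring
  · have := comb5 (g0 := 65536) (g1 := 256) (g2 := 128) (g3 := 128) (g4 := 128) ha hb0
      (chk_sound acZ0 h0 h1 h2 h3 h4) (chk_sound acZ1 h0 h1 h2 h3 h4) (chk_sound acZ2 h0 h1 h2 h3 h4) (chk_sound acZ3 h0 h1 h2 h3 h4) (chk_sound acZ4 h0 h1 h2 h3 h4)
      (by norm_num) (by norm_num) (by norm_num) (by norm_num) (by norm_num)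
    simp only [agZ0, agZ1, agZ2, agZ3, agZ4, f7, tl, nl, dm, E.evR, pE_ev, pS_ev] at this
    push_cast at this
    rw [← sub_nonneg]
    refine this.trans_eq ?_
    simp only [c2, c3]
    ring
  · have := comb5 (g0 := 65536) (g1 := 256) (g2 := 128) (g3 := 128) (g4 := 128) ha hb0
      (chk_sound acD0 h0 h1 h2 h3 h4) (chk_sound acD1 h0 h1 h2 h3 h4) (chk_sound acD2 h0 h1 h2 h3 h4) (chk_sound acD3 h0 h1 h2 h3 h4) (chk_sound acD4 h0 h1 h2 h3 h4)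
      (by norm_num) (by norm_num) (by norm_num) (by norm_num) (by norm_num)
    simp only [agD0, agD1, agD2, agD3, agD4, f6, tl, nl, dm, E.evR, pE_ev, pS_ev] at this
    push_cast at this
    rw [← sub_nonneg]
    refine this.trans_eq ?_
    simp only [c2, c3]
    ring
  · have := comb3 (g0 := 256) (g1 := 1) (g2 := 1) ha hb0
      (chk_sound acC0 h0 h1 h2 h3 h4) (chk_sound acC1 h0 h1 h2 h3 h4) (chk_sound acC2 h0 h1 h2 h3 h4)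
      (by norm_num) (by norm_num) (by norm_num)
    simp only [agC0, agC1, agC2, f6c, tl, nl, dm, E.evR, pE_ev, pS_ev] at this
    push_cast at this
    rw [← sub_nonneg]
    refine this.trans_eq ?_
    simp only [c2, c3]
    ring

theorem bhom : homA bP0 bP1 bT0 bT1 bT2 bZ0 bZ1 bZ2 bD0 bD1 bD2 bC0 bC1 = true := by
  decide +kernel

theorem ent_b {a b : ℝ} (ha : 0 ≤ a) (hb : 0 ≤ b) (hab : 256*(a+b) = 1) :
    Nonempty (Ent (384*a + 1024*b)) := by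
  have hb0 : 0 ≤ b := by linarith
  obtain rfl : a = 1/256 - b := by linarith
  refine ent_of bhom (a := 1/256 - b) (b := b) (u := 320*(1/256 - b) + 536*b)
    (w := 257*(1/256 - b) + 257*b) (c := 29360) (by linarith) (by nlinarith [sq_nonneg (1000*b - 1)]) (by linarith)
    (by norm_num) ?_ ?_ ?_ ?_ <;> intro y0 y1 y2 y3 y4 h0 h1 h2 h3 h4
  · have := comb5 (g0 := 128) (g1 := 128) (g2 := 128) (g3 := 128) (g4 := 1024) ha hb0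
      (chk_sound bcG0 h0 h1 h2 h3 h4) (chk_sound bcG1 h0 h1 h2 h3 h4) (chk_sound bcG2 h0 h1 h2 h3 h4) (chk_sound bcG3 h0 h1 h2 h3 h4) (chk_sound bcG4 h0 h1 h2 h3 h4)
      (by norm_num) (by norm_num) (by norm_num) (by norm_num) (by norm_num)
    simp only [bgG0, bgG1, bgG2, bgG3, bgG4, f7, tl, nl, dm, E.evR, pE_ev, pS_ev] at this
    push_cast at this
    rw [← sub_nonneg]
    refine this.trans_eq ?_
    simp only [c2, c3]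
    ring
  · have := comb5 (g0 := 128) (g1 := 128) (g2 := 128) (g3 := 128) (g4 := 1024) ha hb0
      (chk_sound bcZ0 h0 h1 h2 h3 h4) (chk_sound bcZ1 h0 h1 h2 h3 h4) (chk_sound bcZ2 h0 h1 h2 h3 h4) (chk_sound bcZ3 h0 h1 h2 h3 h4) (chk_sound bcZ4 h0 h1 h2 h3 h4)
      (by norm_num) (by norm_num) (by norm_num) (by norm_num) (by norm_num)
    simp only [bgZ0, bgZ1, bgZ2, bgZ3, bgZ4, f7, tl, nl, dm, E.evR, pE_ev, pS_ev] at this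
    push_cast at this
    rw [← sub_nonneg]
    refine this.trans_eq ?_
    simp only [c2, c3]
    ring
  · have := comb5 (g0 := 128) (g1 := 128) (g2 := 128) (g3 := 128) (g4 := 1024) ha hb0
      (chk_sound bcD0 h0 h1 h2 h3 h4) (chk_sound bcD1 h0 h1 h2 h3 h4) (chk_sound bcD2 h0 h1 h2 h3 h4) (chk_sound bcD3 h0 h1 h2 h3 h4) (chk_sound bcD4 h0 h1 h2 h3 h4)
      (by norm_num) (by norm_num) (by norm_num) (by norm_num) (by norm_num)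
    simp only [bgD0, bgD1, bgD2, bgD3, bgD4, f6, tl, nl, dm, E.evR, pE_ev, pS_ev] at this
    push_cast at this
    rw [← sub_nonneg]
    refine this.trans_eq ?_
    simp only [c2, c3]
    ring
  · have := comb3 (g0 := 1) (g1 := 1) (g2 := 1) ha hb0
      (chk_sound bcC0 h0 h1 h2 h3 h4) (chk_sound bcC1 h0 h1 h2 h3 h4) (chk_sound bcC2 h0 h1 h2 h3 h4)
      (by norm_num) (by norm_num) (by norm_num)
    simp only [bgC0, bgC1, bgC2, f6c, tl, nl, dm, E.evR, pE_ev, pS_ev] at this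
    push_cast at this
    rw [← sub_nonneg]
    refine this.trans_eq ?_
    simp only [c2, c3]
    ring

theorem exists_ent {L : ℝ} (h1 : 1 < L) (h4 : L ≤ 4) : Nonempty (Ent L) := by
  rcases le_total L (3/2) with h | h
  · have := ent_a (a := 1/256 - (L-1)/128) (b := (L-1)/128) (by linarith) (by linarith) (by ring)
    rwa [show 256*(1/256 - (L-1)/128) + 384*((L-1)/128) = L by ring] at this
  · have := ent_b (a := 1/256 - (L-3/2)/640) (b := (L-3/2)/640) (by linarith) (by linarith)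
      (by ring)
    rwa [show 384*(1/256 - (L-3/2)/640) + 1024*((L-3/2)/640) = L by ring] at this

end

end Pool.Agent.Work.MP_6bf1e5_an.En
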