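import Mathlib

/-! A reflective checker for positivity certificates of homogeneous integer polynomials in five
variables on the orthant. Identities are checked by Kronecker substitution. -/

namespace Pool.Agent.Work.MP_6bf1e5_an.En

open MvPolynomial

inductive E : Type
  | term (c : ℤ) (e0 e1 e2 e3 e4 : ℕ) : E
  | add (p q : E) : E
  | mul (p q : E) : E
  | sq (p : E) : E

noncomputable section

def E.evR (y0 y1 y2 y3 y4 : ℝ) : E → ℝ
  | .term c e0 e1 e2 e3 e4 => c * (y0^e0 * y1^e1 * y2^e2 * y3^e3 * y4^e4)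
  | .add p q => p.evR y0 y1 y2 y3 y4 + q.evR y0 y1 y2 y3 y4
  | .mul p q => p.evR y0 y1 y2 y3 y4 * q.evR y0 y1 y2 y3 y4
  | .sq p => p.evR y0 y1 y2 y3 y4 ^ 2

def E.evZ (W : ℕ) (e : E) : ℤ :=
  E.rec (fun c _ e1 e2 e3 e4 => Int.mul c (Int.ofNat (Nat.pow 2 (W * (e1 + 8*e2 + 64*e3 + 512*e4)))))
    (fun _ _ a b => Int.add a b) (fun _ _ a b => Int.mul a b)
    (fun _ a => Int.ofNat (Nat.pow (Int.natAbs a) 2)) e

def E.nrm (e : E) : ℕ :=
  E.rec (fun c _ _ _ _ _ => Int.natAbs c) (fun _ _ a b => Nat.add a b) (fun _ _ a b => Nat.mul a b)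
    (fun _ a => Nat.pow a 2) e

def E.deg (e : E) : ℕ :=
  E.rec (fun _ e0 e1 e2 e3 e4 => e0 + e1 + e2 + e3 + e4) (fun _ _ a _ => a)
    (fun _ _ a b => Nat.add a b) (fun _ a => Nat.mul 2 a) e

def E.hom (e : E) : Bool :=
  E.rec (fun _ _ _ _ _ _ => true) (fun p q a b => (Nat.beq p.deg q.deg) && a && b)
    (fun _ _ a b => a && b) (fun _ a => a) e

def E.pos (e : E) : Bool :=
  E.rec (fun c _ _ _ _ _ => decide (0 ≤ c)) (fun _ _ a b => a && b) (fun _ _ a b => a && b)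
    (fun _ _ => true) e

def xp (e0 e1 e2 e3 e4 : ℕ) : Fin 5 →₀ ℕ := Finsupp.equivFunOnFinite.symm ![e0, e1, e2, e3, e4]

def E.mv : E → MvPolynomial (Fin 5) ℤ
  | .term c e0 e1 e2 e3 e4 => monomial (xp e0 e1 e2 e3 e4) c
  | .add p q => p.mv + q.mv
  | .mul p q => p.mv * q.mv
  | .sq p => p.mv * p.mv

def E.ab : E → MvPolynomial (Fin 5) ℤ
  | .term c e0 e1 e2 e3 e4 => monomial (xp e0 e1 e2 e3 e4) |c|
  | .add p q => p.ab + q.ab
  | .mul p q => p.ab * q.ab
  | .sq p => p.ab * p.ab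

theorem aeval_xp {R : Type*} [CommRing R] (x : Fin 5 → R) (c : ℤ) (e0 e1 e2 e3 e4 : ℕ) :
    aeval x (monomial (xp e0 e1 e2 e3 e4) c)
      = c * (x 0^e0 * x 1^e1 * x 2^e2 * x 3^e3 * x 4^e4) := by
  rw [aeval_monomial, Finsupp.prod_fintype _ _ (fun i => pow_zero _), Fin.prod_univ_five]
  simp [xp]

theorem E.evR_eq (y0 y1 y2 y3 y4 : ℝ) (e : E) :
    e.evR y0 y1 y2 y3 y4 = aeval ![y0, y1, y2, y3, y4] e.mv := by
  induction e with
  | term c e0 e1 e2 e3 e4 => simp [E.evR, E.mv, aeval_xp]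
  | add p q hp hq => simp [E.evR, E.mv, hp, hq]
  | mul p q hp hq => simp [E.evR, E.mv, hp, hq]
  | sq p hp => simp [E.evR, E.mv, hp, _root_.sq]

def kr (W : ℕ) : Fin 5 → ℤ := ![1, 2^W, (2^W)^8, (2^W)^64, (2^W)^512]

theorem E.evZ_eq (W : ℕ) (e : E) : e.evZ W = aeval (kr W) e.mv := by
  induction e with
  | term c e0 e1 e2 e3 e4 =>
    rw [E.mv, aeval_xp]
    change c * ((2^(W * (e1 + 8*e2 + 64*e3 + 512*e4)) : ℕ) : ℤ) = _
    simp only [kr, Matrix.cons_val, Int.cast_id, one_pow, one_mul, ← pow_mul, ← pow_add]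
    push_cast
    congr 2
    ring
  | add p q hp hq => rw [E.mv, map_add, ← hp, ← hq]; rfl
  | mul p q hp hq => rw [E.mv, map_mul, ← hp, ← hq]; rfl
  | sq p hp =>
    rw [E.mv, map_mul, ← hp]
    change (((p.evZ W).natAbs ^ 2 : ℕ) : ℤ) = _
    rw [Nat.cast_pow, Int.natAbs_sq, _root_.sq]

theorem E.nrm_eq (e : E) : (e.nrm : ℤ) = aeval (fun _ => (1:ℤ)) e.ab := by
  induction e with
  | term c e0 e1 e2 e3 e4 =>
    rw [E.ab, aeval_xp]
    change ((c.natAbs : ℕ) : ℤ) = _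
    simp
  | add p q hp hq => rw [E.ab, map_add, ← hp, ← hq, ← Nat.cast_add]; rfl
  | mul p q hp hq => rw [E.ab, map_mul, ← hp, ← hq, ← Nat.cast_mul]; rfl
  | sq p hp => rw [E.ab, map_mul, ← hp, ← Nat.cast_mul, ← _root_.sq]; rfl

theorem abs_coeff_mul {p q p' q' : MvPolynomial (Fin 5) ℤ}
    (hp : ∀ a, |coeff a p| ≤ coeff a p') (hq : ∀ a, |coeff a q| ≤ coeff a q') (a : Fin 5 →₀ ℕ) :
    |coeff a (p * q)| ≤ coeff a (p' * q') := by
  rw [coeff_mul, coeff_mul]
  refine (Finset.abs_sum_le_sum_abs _ _).trans (Finset.sum_le_sum fun x _ => ?_)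
  rw [abs_mul]
  exact mul_le_mul (hp _) (hq _) (abs_nonneg _) ((abs_nonneg _).trans (hp _))

theorem E.abs_coeff (e : E) : ∀ a, |coeff a e.mv| ≤ coeff a e.ab := by
  induction e with
  | term c e0 e1 e2 e3 e4 =>
    intro a
    simp only [E.mv, E.ab, coeff_monomial]
    split_ifs <;> simp
  | add p q hp hq =>
    intro a
    simp only [E.mv, E.ab, coeff_add]
    exact (abs_add_le _ _).trans (add_le_add (hp a) (hq a))
  | mul p q hp hq => exact abs_coeff_mul hp hq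
  | sq p hp => exact abs_coeff_mul hp hp

theorem E.coeff_le (e : E) (a : Fin 5 →₀ ℕ) : |coeff a e.mv| ≤ e.nrm := by
  refine (e.abs_coeff a).trans ?_
  rw [e.nrm_eq, aeval_def, eval₂_eq']
  simp only [algebraMap_int_eq, eq_intCast, Int.cast_id, one_pow, Finset.prod_const_one, mul_one]
  by_cases h : a ∈ e.ab.support
  · exact Finset.single_le_sum (f := fun a => coeff a e.ab)
      (fun b _ => (abs_nonneg _).trans (e.abs_coeff b)) h
  · rw [notMem_support_iff.1 h]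
    exact Finset.sum_nonneg fun b _ => (abs_nonneg _).trans (e.abs_coeff b)

theorem E.isHom (e : E) : e.hom = true → e.mv.IsHomogeneous e.deg := by
  induction e with
  | term c e0 e1 e2 e3 e4 =>
    refine fun _ => isHomogeneous_monomial _ ?_
    rw [Finsupp.degree_eq_sum, Fin.sum_univ_five]
    simp [xp, E.deg]
  | add p q hp hq =>
    intro h
    have h' : (Nat.beq p.deg q.deg && p.hom && q.hom) = true := h
    simp only [Bool.and_eq_true, Nat.beq_eq] at h'
    exact (hp h'.1.2).add (h'.1.1 ▸ hq h'.2)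
  | mul p q hp hq =>
    intro h
    have h' : (p.hom && q.hom) = true := h
    simp only [Bool.and_eq_true] at h'
    exact (hp h'.1).mul (hq h'.2)
  | sq p hp =>
    intro h
    have := (hp h).mul (hp h)
    rwa [← two_mul] at this

theorem kron {P : MvPolynomial (Fin 5) ℤ} {d W : ℕ} (hd : d ≤ 7) (hP : P.IsHomogeneous d)
    (hc : ∀ a, |coeff a P| < 2^W) (h0 : aeval (kr W) P = 0) : P = 0 := by
  by_contra hne
  let ix : (Fin 5 →₀ ℕ) → ℕ := fun a => a 1 + 8 * a 2 + 64 * a 3 + 512 * a 4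
  obtain ⟨a, ha, hmin⟩ := P.support.exists_min_image ix (support_nonempty.2 hne)
  have hdeg : ∀ b ∈ P.support, b 0 + b 1 + b 2 + b 3 + b 4 = d := fun b hb => by
    have := hP (mem_support_iff.1 hb)
    rw [Finsupp.weight_apply, Finsupp.sum_fintype _ _ (fun i => by simp), Fin.sum_univ_five] at this
    simpa using this
  have hev : aeval (kr W) P = ∑ b ∈ P.support, coeff b P * (2^W)^ix b := by
    rw [aeval_def, eval₂_eq']
    refine Finset.sum_congr rfl fun b _ => ?_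
    rw [Fin.prod_univ_five]
    simp only [kr, Matrix.cons_val, algebraMap_int_eq, eq_intCast, Int.cast_id, one_pow, one_mul,
      ← pow_mul, ← pow_add, ix]
    congr 2
    ring
  rw [hev, ← Finset.add_sum_erase _ _ ha] at h0
  have h1 : ((2:ℤ)^W)^ix a * 2^W ∣ ∑ b ∈ P.support.erase a, coeff b P * (2^W)^ix b := by
    refine Finset.dvd_sum fun b hb => Dvd.dvd.mul_left ?_ _
    obtain ⟨hba, hb⟩ := Finset.mem_erase.1 hb
    rw [← pow_succ]
    refine pow_dvd_pow _ (lt_of_le_of_ne (hmin b hb) fun h => hba ?_)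
    have e1 := hdeg a ha
    have e2 := hdeg b hb
    simp only [ix] at h
    have h4 : a 4 = b 4 := by omega
    have h3 : a 3 = b 3 := by omega
    have h2 : a 2 = b 2 := by omega
    ext i
    fin_cases i <;> simp only [Fin.zero_eta, Fin.mk_one, Fin.reduceFinMk] <;> omega
  rw [← neg_eq_of_add_eq_zero_right h0, dvd_neg, mul_comm (coeff a P),
    mul_dvd_mul_iff_left (by positivity)] at h1
  exact mem_support_iff.1 ha (Int.eq_zero_of_abs_lt_dvd h1 (hc a))

theorem E.nonneg {y0 y1 y2 y3 y4 : ℝ} (h0 : 0 ≤ y0) (h1 : 0 ≤ y1) (h2 : 0 ≤ y2) (h3 : 0 ≤ y3)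
    (h4 : 0 ≤ y4) (e : E) : e.pos = true → 0 ≤ e.evR y0 y1 y2 y3 y4 := by
  induction e with
  | term c e0 e1 e2 e3 e4 =>
    intro h
    have h' : (0:ℝ) ≤ c := by exact_mod_cast (of_decide_eq_true h : 0 ≤ c)
    simp only [E.evR]
    positivity
  | add p q hp hq =>
    intro h
    have h' : (p.pos && q.pos) = true := h
    simp only [Bool.and_eq_true] at h'
    exact add_nonneg (hp h'.1) (hq h'.2)
  | mul p q hp hq =>
    intro h
    have h' : (p.pos && q.pos) = true := h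
    simp only [Bool.and_eq_true] at h'
    exact mul_nonneg (hp h'.1) (hq h'.2)
  | sq p _ => exact fun _ => sq_nonneg _

/-- The monomial with base-8 code `m`, with coefficient `c`. -/
def tm (c : ℤ) (m : ℕ) : E := .term c (m % 8) (m / 8 % 8) (m / 64 % 8) (m / 512 % 8) (m / 4096 % 8)

/-- All codes `(e1, e2, e3, e4)` in base 8 with digit sum at most `d`. -/
def codes (d : ℕ) : List ℕ :=
  (List.range (d+1)).flatMap fun a => (List.range (d+1-a)).flatMap fun b =>
    (List.range (d+1-a-b)).flatMap fun c => (List.range (d+1-a-b-c)).map fun e =>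
      a + 8*b + 64*c + 512*e

/-- The polynomial of degree `d` whose coefficients are the base `2^W` digits of `N`. -/
def digE (d W N : ℕ) : E :=
  (codes d).foldr (fun m r => E.add
    (.term (Int.ofNat (N >>> (W*m) % 2^W)) (d - (m % 8 + m / 8 % 8 + m / 64 % 8 + m / 512))
      (m % 8) (m / 8 % 8) (m / 64 % 8) (m / 512)) r) (.term 0 d 0 0 0 0)

def chk (W k : ℕ) (g s : E) : Bool :=
  Int.rec (fun N => g.hom && s.hom && (digE g.deg W N).hom && Nat.beq g.deg s.deg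
      && Nat.beq g.deg (digE g.deg W N).deg && Nat.ble g.deg 7 && s.pos && (digE g.deg W N).pos
      && Nat.blt ((k+1) * g.nrm + s.nrm + (digE g.deg W N).nrm) (2^W)
      && decide ((digE g.deg W N).evZ W = Int.ofNat N))
    (fun _ => false) (Int.sub (Int.mul (Int.ofNat (k+1)) (g.evZ W)) (s.evZ W))

theorem chk_sound {W k : ℕ} {g s : E} (h : chk W k g s = true) {y0 y1 y2 y3 y4 : ℝ}
    (h0 : 0 ≤ y0) (h1 : 0 ≤ y1) (h2 : 0 ≤ y2) (h3 : 0 ≤ y3) (h4 : 0 ≤ y4) :
    0 ≤ g.evR y0 y1 y2 y3 y4 := by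
  unfold chk at h
  generalize hz : Int.sub (Int.mul (Int.ofNat (k+1)) (g.evZ W)) (s.evZ W) = z at h
  cases z with
  | negSucc n => exact absurd h (by simp)
  | ofNat N =>
    simp only [Bool.and_eq_true, Nat.beq_eq, Nat.ble_eq, Nat.blt_eq, decide_eq_true_eq] at h
    obtain ⟨⟨⟨⟨⟨⟨⟨⟨⟨a1, a2⟩, a3⟩, a4⟩, a5⟩, a6⟩, a7⟩, a8⟩, a9⟩, a10⟩ := h
    generalize digE g.deg W N = r at *
    have hz' : ((k+1 : ℕ) : ℤ) * g.evZ W - s.evZ W = r.evZ W := by rw [a10]; exact hz
    have hP : C ((k+1 : ℕ) : ℤ) * g.mv - s.mv - r.mv = 0 := by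
      refine kron (W := W) a6 ((((g.isHom a1).C_mul _).sub (a4 ▸ s.isHom a2)).sub
        (a5 ▸ r.isHom a3)) (fun a => ?_) ?_
      · have b1 := abs_le.1 (g.coeff_le a)
        have b2 := abs_le.1 (s.coeff_le a)
        have b3 := abs_le.1 (r.coeff_le a)
        have b4 : (((k+1) * g.nrm + s.nrm + r.nrm : ℕ) : ℤ) < 2^W := by exact_mod_cast a9
        have b5 : (0:ℤ) ≤ (k+1 : ℕ) := by positivity
        rw [coeff_sub, coeff_sub, coeff_C_mul, abs_lt]
        rw [Nat.cast_add, Nat.cast_add, Nat.cast_mul] at b4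
        constructor <;> nlinarith [mul_le_mul_of_nonneg_left b1.1 b5,
          mul_le_mul_of_nonneg_left b1.2 b5]
      · rw [map_sub, map_sub, map_mul, aeval_C, ← E.evZ_eq, ← E.evZ_eq, ← E.evZ_eq, ← hz']
        simp
    have hR := congrArg (aeval ![y0, y1, y2, y3, y4] : MvPolynomial (Fin 5) ℤ →ₐ[ℤ] ℝ) hP
    rw [map_sub, map_sub, map_mul, aeval_C, ← E.evR_eq, ← E.evR_eq, ← E.evR_eq, map_zero] at hR
    have c1 := s.nonneg h0 h1 h2 h3 h4 a7
    have c2 := r.nonneg h0 h1 h2 h3 h4 a8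
    have c3 : (0:ℝ) < algebraMap ℤ ℝ ((k+1 : ℕ) : ℤ) := by
      simp only [algebraMap_int_eq, eq_intCast, Int.cast_natCast]
      positivity
    exact (mul_nonneg_iff_of_pos_left c3).1 (by linarith)

end

end Pool.Agent.Work.MP_6bf1e5_an.En
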