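import Pool.Agent.Work.MP_6bf1e5_an.En.Kron

/-! Integer polynomials in four variables given by lists of terms, and the expressions that are
certified to be nonnegative. -/

namespace Pool.Agent.Work.MP_6bf1e5_an.En

noncomputable section

structure Tm where
  c : ℤ
  a : ℕ
  b : ℕ
  d : ℕ
  e : ℕ

def ev (P : List Tm) (x y z u : ℝ) : ℝ :=
  (P.map fun t => (t.c : ℝ) * (x^t.a * y^t.b * z^t.d * u^t.e)).sum

def d0 (P : List Tm) : List Tm := P.map fun t => ⟨t.c * t.a, t.a - 1, t.b, t.d, t.e⟩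
def d1 (P : List Tm) : List Tm := P.map fun t => ⟨t.c * t.b, t.a, t.b - 1, t.d, t.e⟩
def d2 (P : List Tm) : List Tm := P.map fun t => ⟨t.c * t.d, t.a, t.b, t.d - 1, t.e⟩
def d3 (P : List Tm) : List Tm := P.map fun t => ⟨t.c * t.e, t.a, t.b, t.d, t.e - 1⟩

theorem ev_deriv (P : List Tm) {x y z u : ℝ → ℝ} {x' y' z' u' t : ℝ} {s : Set ℝ}
    (hx : HasDerivWithinAt x x' s t) (hy : HasDerivWithinAt y y' s t)
    (hz : HasDerivWithinAt z z' s t) (hu : HasDerivWithinAt u u' s t) :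
    HasDerivWithinAt (fun t => ev P (x t) (y t) (z t) (u t))
      (ev (d0 P) (x t) (y t) (z t) (u t) * x' + ev (d1 P) (x t) (y t) (z t) (u t) * y'
        + ev (d2 P) (x t) (y t) (z t) (u t) * z' + ev (d3 P) (x t) (y t) (z t) (u t) * u') s t := by
  induction P with
  | nil => simpa [ev, d0, d1, d2, d3] using hasDerivWithinAt_const t s (0:ℝ)
  | cons p P ih =>
    simp only [ev, d0, d1, d2, d3, List.map_cons, List.sum_cons] at ih ⊢
    refine ((((((hx.fun_pow p.a).fun_mul (hy.fun_pow p.b)).fun_mul (hz.fun_pow p.d)).fun_mul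
      (hu.fun_pow p.e)).const_mul (p.c : ℝ)).fun_add ih).congr_deriv ?_
    push_cast
    ring

def homL (n : ℕ) (P : List Tm) : Bool :=
  P.all fun t => decide (t.c = 0) || Nat.beq (t.a + t.b + t.d + t.e) n

theorem ev_bound {n : ℕ} {P : List Tm} (h : homL n P = true) :
    ∃ C, 0 ≤ C ∧ ∀ m x y z u : ℝ, |x| ≤ m → |y| ≤ m → |z| ≤ m → |u| ≤ m →
      |ev P x y z u| ≤ C * m^n := by
  induction P with
  | nil => exact ⟨0, le_rfl, fun m x y z u _ _ _ _ => by simp [ev]⟩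
  | cons p P ih =>
    simp only [homL, List.all_cons, Bool.and_eq_true, Bool.or_eq_true, decide_eq_true_eq,
      Nat.beq_eq] at h
    obtain ⟨C, hC0, hC⟩ := ih h.2
    refine ⟨|(p.c : ℝ)| + C, by positivity, fun m x y z u hx hy hz hu => ?_⟩
    have h1 := hC m x y z u hx hy hz hu
    have hm : 0 ≤ m := (abs_nonneg x).trans hx
    simp only [ev, List.map_cons, List.sum_cons] at h1 ⊢
    rw [add_mul]
    refine (abs_add_le _ _).trans (add_le_add ?_ h1)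
    rcases h.1 with h2 | h2
    · simp [h2]
    · rw [abs_mul, ← h2, pow_add, pow_add, pow_add, abs_mul, abs_mul, abs_mul, abs_pow, abs_pow,
        abs_pow, abs_pow]
      gcongr

theorem ev_zero {n : ℕ} {P : List Tm} (h : homL (n+1) P = true) : ev P 0 0 0 0 = 0 := by
  obtain ⟨C, -, hC⟩ := ev_bound h
  simpa using hC 0 0 0 0 0

/-- Sign and magnitude decoding. -/
def zz (x : ℕ) : ℤ := cond (Nat.beq (x % 2) 0) (Int.ofNat (x / 2)) (Int.neg (Int.ofNat (x / 2)))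

/-- The homogeneous polynomial of degree `n` with packed coefficients `N`. -/
def unp (n w N : ℕ) : List Tm :=
  List.rec (motive := fun _ => ℕ → List Tm) (fun _ => [])
    (fun m _ ih N => ⟨zz (N % 2^w), n - (m % 8 + m / 8 % 8 + m / 64), m % 8, m / 8 % 8, m / 64⟩
      :: ih (N >>> w))
    ((codes n).filter fun m => Nat.blt m 512) N

def zE (n : ℕ) : E := .term 0 n 0 0 0 0

def pE (n : ℕ) (P : List Tm) : E :=
  P.foldr (fun t r => cond (decide (t.c = 0)) r (.add (.term t.c t.a t.b t.d t.e 0) r)) (zE n)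

def pS (n : ℕ) (P : List Tm) : E :=
  P.foldr (fun t r => cond (decide (t.c = 0)) r (.add (.term t.c 0 t.a t.b t.d t.e) r)) (zE n)

theorem pE_ev (n : ℕ) (P : List Tm) (y0 y1 y2 y3 y4 : ℝ) :
    (pE n P).evR y0 y1 y2 y3 y4 = ev P y0 y1 y2 y3 := by
  induction P with
  | nil => simp [pE, zE, ev, E.evR]
  | cons p P ih =>
    simp only [pE, ev, List.foldr_cons, List.map_cons, List.sum_cons] at ih ⊢
    by_cases h : p.c = 0 <;> simp [h, ih, E.evR]

theorem pS_ev (n : ℕ) (P : List Tm) (y0 y1 y2 y3 y4 : ℝ) :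
    (pS n P).evR y0 y1 y2 y3 y4 = ev P y1 y2 y3 y4 := by
  induction P with
  | nil => simp [pS, zE, ev, E.evR]
  | cons p P ih =>
    simp only [pS, ev, List.foldr_cons, List.map_cons, List.sum_cons] at ih ⊢
    by_cases h : p.c = 0 <;> simp [h, ih, E.evR]

/-- Telescoping part. -/
def tl (n : ℕ) (T : List Tm) (a b : ℤ) : E :=
  .add (.mul (.term a 0 0 0 0 0) (pE n T)) (.mul (.term (-b) 0 0 0 0 0) (pS n T))

/-- Contribution of the quadratic terms. -/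
def nl (P : List Tm) (s0 s1 s2 s3 k0 k1 k2 k3 : ℤ) : E :=
  .add (.add (.mul (pS 5 (d0 P)) (.term (-s0) 2 0 0 0 0)) (.mul (pE 5 (d0 P)) (.term k0 1 1 0 0 0)))
    (.add (.mul (pE 5 (d1 P)) (.add (.term (-s1) 2 0 0 0 0) (.term k1 0 1 1 0 0)))
      (.add (.mul (pE 5 (d2 P)) (.add (.term (-s2) 0 2 0 0 0) (.term k2 0 0 1 1 0)))
        (.mul (pE 5 (d3 P)) (.add (.term (-s3) 0 0 2 0 0) (.term k3 0 0 0 1 1)))))

/-- Contribution of the damping terms. -/
def dm (P : List Tm) (k0 k1 k2 k3 : ℤ) : E :=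
  .add (.add (.mul (pE 5 (d0 P)) (.term k0 1 0 0 0 0)) (.mul (pE 5 (d1 P)) (.term k1 0 1 0 0 0)))
    (.add (.mul (pE 5 (d2 P)) (.term k2 0 0 1 0 0)) (.mul (pE 5 (d3 P)) (.term k3 0 0 0 1 0)))

def f7 (P0 P1 T0 T1 T2 : List Tm) (a0 b0 a1 b1 a2 b2 s0 s1 s2 s3 k0 k1 k2 k3
    s0' s1' s2' s3' k0' k1' k2' k3' : ℤ) : E :=
  .add (.add (tl 7 T0 a0 b0) (.add (tl 7 T1 a1 b1) (tl 7 T2 a2 b2)))
    (.add (nl P0 s0 s1 s2 s3 k0 k1 k2 k3) (nl P1 s0' s1' s2' s3' k0' k1' k2' k3'))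

def f6 (P0 P1 T0 T1 T2 : List Tm) (a0 b0 a1 b1 a2 b2 k0 k1 k2 k3 k0' k1' k2' k3' c : ℤ) : E :=
  .add (.add (tl 6 T0 a0 b0) (.add (tl 6 T1 a1 b1) (tl 6 T2 a2 b2)))
    (.add (.add (dm P0 k0 k1 k2 k3) (dm P1 k0' k1' k2' k3')) (.term (-c) 6 0 0 0 0))

def f6c (P0 P1 T0 T1 : List Tm) (a0 b0 a1 b1 k k' c : ℤ) : E :=
  .add (.add (tl 6 T0 a0 b0) (tl 6 T1 a1 b1))
    (.add (.add (.mul (.term k 0 0 0 0 0) (pE 6 P0)) (.mul (.term k' 0 0 0 0 0) (pE 6 P1)))
      (.term (-c) 6 0 0 0 0))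

/-- A form of degree `n` with packed coefficients `N` on the monomials `bs`. -/
def lin (n w : ℕ) (bs : List ℕ) (N : ℕ) : E :=
  List.rec (motive := fun _ => ℕ → E) (fun _ => zE n)
    (fun m _ ih N => cond (Nat.beq N 0) (zE n) (.add (tm (zz (N % 2^w)) m) (ih (N >>> w)))) bs N

/-- A monomial times a sum of squares. -/
def blk (c : ℤ) (w : ℕ) (x : ℕ × ℕ × List ℕ × List ℕ) : E :=
  .mul (tm c x.1) (x.2.2.2.foldr (fun N r => .add (.sq (lin x.2.1 w x.2.2.1 N)) r) (zE (2*x.2.1)))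

/-- A monomial times the square of a binomial. -/
def bin (x : ℕ) : E :=
  .mul (tm (Int.ofNat (x >>> 47)) (x % 2^15))
    (.sq (.add (tm 1 (x >>> 15 % 2^15)) (tm (zz (x >>> 45 % 4)) (x >>> 30 % 2^15))))

def sos (n : ℕ) (c : ℤ) (w : ℕ) (bl : List (ℕ × ℕ × List ℕ × List ℕ)) (bi : List ℕ) : E :=
  .add (bl.foldr (fun x r => .add (blk c w x) r) (zE n)) (bi.foldr (fun x r => .add (bin x) r) (zE n))

end

end Pool.Agent.Work.MP_6bf1e5_an.En
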