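import Pool.Agent.Work.MP_6bf1e5_an.En.Ent

/-! Summation of the local entropy inequalities along a finitely supported sequence. -/

namespace Pool.Agent.Work.MP_6bf1e5_an.En

open Finset

noncomputable section

theorem tele {a τ : ℕ → ℝ} {v : ℝ} (hv : 0 ≤ v) (h : ∀ n, a n ≤ τ n - v * τ (n+1)) (M : ℕ) :
    ∑ n ∈ range M, v^n * a n ≤ τ 0 - v^M * τ M := by
  induction M with
  | zero => simp
  | succ M ih =>
    have := mul_le_mul_of_nonneg_left (h M) (pow_nonneg hv M)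
    rw [sum_range_succ, pow_succ]
    linarith

theorem shift_le {a : ℕ → ℝ} {v : ℝ} (hv : 1 ≤ v) (ha : ∀ n, 0 ≤ a n) {N : ℕ}
    (hN : a (N+1) = 0) :
    ∑ n ∈ range (N+1), v^n * a (n+1) ≤ ∑ n ∈ range (N+1), v^n * a n := by
  have h1 : ∑ n ∈ range (N+1), v^n * a (n+1) ≤ ∑ n ∈ range (N+1), v^(n+1) * a (n+1) :=
    sum_le_sum fun n _ => mul_le_mul_of_nonneg_right (pow_le_pow_right₀ hv (by omega)) (ha _)
  have h2 := sum_range_succ' (fun n => v^n * a n) (N+1)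
  rw [sum_range_succ, hN] at h2
  have := ha 0
  simp only [pow_zero] at h2
  linarith

def sg (Q : ℕ → ℝ) (n : ℕ) : ℝ := Q (n-1)^6 + Q n^6 + Q (n+1)^6 + Q (n+2)^6 + Q (n+3)^6

theorem sum_sg {Q : ℕ → ℝ} {v : ℝ} (hv : 1 ≤ v) {N : ℕ} (h0 : Q 0 = 0)
    (hN : ∀ n, N < n → Q n = 0) :
    ∑ n ∈ range (N+1), v^n * sg Q n ≤ (v+4) * ∑ n ∈ range (N+1), v^n * Q n^6 := by
  have h1 := shift_le (a := fun n => Q n^6) hv (fun n => by positivity) (N := N)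
    (by simp [hN (N+1) (by omega)])
  have h2 := shift_le (a := fun n => Q (n+1)^6) hv (fun n => by positivity) (N := N)
    (by simp [hN (N+1+1) (by omega)])
  have h3 := shift_le (a := fun n => Q (n+2)^6) hv (fun n => by positivity) (N := N)
    (by simp [hN (N+1+2) (by omega)])
  have h4 := tele (a := fun n => Q (n-1)^6 - v * Q n^6) (τ := fun n => Q (n-1)^6) (v := v)
    (by linarith) (fun n => by simp) (N+1)
  have h5 : 0 ≤ v^(N+1) * Q N^6 := by positivity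
  simp only [mul_sub, sum_sub_distrib, Nat.add_sub_cancel, Nat.zero_sub, h0, mul_left_comm _ v,
    ← mul_sum] at h4
  simp only [sg, mul_add, sum_add_distrib]
  simp only [add_assoc] at h1 h2 h3 ⊢
  norm_num at h1 h2 h3 h4 ⊢
  linarith

theorem exists_max {Q : ℕ → ℝ} (hQ : ∀ n, 0 ≤ Q n) (n : ℕ) : ∃ m, 0 ≤ m ∧ m^6 ≤ sg Q n ∧
    Q (n-1) ≤ m ∧ Q n ≤ m ∧ Q (n+1) ≤ m ∧ Q (n+2) ≤ m ∧ Q (n+3) ≤ m := by
  have hmax : ∀ a b A B : ℝ, 0 ≤ A → 0 ≤ B → a^6 ≤ A → b^6 ≤ B → (max a b)^6 ≤ A + B := by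
    intro a b A B h1 h2 h3 h4
    rcases le_total a b with h | h
    · rw [max_eq_right h]; linarith
    · rw [max_eq_left h]; linarith
  refine ⟨max (max (max (max (Q (n-1)) (Q n)) (Q (n+1))) (Q (n+2))) (Q (n+3)),
    le_max_of_le_right (hQ _), ?_, by simp, by simp, by simp, by simp, by simp⟩
  unfold sg
  refine hmax _ _ _ _ (by positivity) (by positivity) (hmax _ _ _ _ (by positivity) (by positivity)
    (hmax _ _ _ _ (by positivity) (by positivity) (hmax _ _ _ _ (by positivity) (by positivity)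
      le_rfl le_rfl) le_rfl) le_rfl) le_rfl

theorem young6 {m a η : ℝ} (hm : 0 ≤ m) (ha : 0 ≤ a) (hη : 0 < η) :
    m^5 * a ≤ η * m^6 + a^6 / η^5 := by
  rcases le_total a (η*m) with h | h
  · have := mul_le_mul_of_nonneg_left h (pow_nonneg hm 5)
    have h2 : 0 ≤ a^6 / η^5 := by positivity
    linarith
  · have h1 : m^5 * a ≤ a^6 / η^5 := by
      rw [le_div_iff₀ (by positivity)]
      have := mul_le_mul_of_nonneg_right (pow_le_pow_left₀ (by positivity) h 5) ha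
      linarith
    have h2 : 0 ≤ η * m^6 := by positivity
    linarith

variable {L : ℝ} (P : Ent L)

/-- The global entropy. -/
def Ent.H (N : ℕ) (Q : ℕ → ℝ) : ℝ :=
  ∑ n ∈ range (N+1), P.w^n * P.Φ (Q n) (Q (n+1)) (Q (n+2)) (Q (n+3))

/-- Its derivative in the direction `L^n V n`. -/
def Ent.dH (N : ℕ) (Q V : ℕ → ℝ) : ℝ :=
  ∑ n ∈ range (N+1), (P.w*L)^n * (P.D0 (Q n) (Q (n+1)) (Q (n+2)) (Q (n+3)) * V n
    + L * P.D1 (Q n) (Q (n+1)) (Q (n+2)) (Q (n+3)) * V (n+1)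
    + L^2 * P.D2 (Q n) (Q (n+1)) (Q (n+2)) (Q (n+3)) * V (n+2)
    + L^3 * P.D3 (Q n) (Q (n+1)) (Q (n+2)) (Q (n+3)) * V (n+3))

theorem Ent.deriv (N : ℕ) {Q : ℝ → ℕ → ℝ} {V : ℕ → ℝ} {a t : ℝ} {s : Set ℝ}
    (h : ∀ n, HasDerivWithinAt (fun t => Q t n) (a * (L^n * V n)) s t) :
    HasDerivWithinAt (fun t => P.H N (Q t)) (a * P.dH N (Q t) V) s t := by
  unfold Ent.H Ent.dH
  rw [mul_sum]
  refine HasDerivWithinAt.fun_sum fun n _ => ?_
  refine ((P.chain (h n) (h (n+1)) (h (n+2)) (h (n+3))).const_mul (P.w^n)).congr_deriv ?_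
  ring

theorem Ent.coer {N : ℕ} {Q : ℕ → ℝ} (hQ : ∀ n, 0 ≤ Q n) (h0 : ∀ n ≤ 3, Q n = 0)
    (hN : ∀ n, N < n → Q n = 0) {n : ℕ} (hn : n ≤ N) : P.c * (P.w^n * Q n^6) ≤ P.H N Q := by
  have hw : 0 ≤ P.w := by linarith [P.hw]
  have h1 := tele (a := fun n => P.c * Q n^6 - P.Φ (Q n) (Q (n+1)) (Q (n+2)) (Q (n+3)))
    (τ := fun n => P.Ω (Q n) (Q (n+1)) (Q (n+2)) (Q (n+3))) hw
    (fun n => P.hΩ _ _ _ _ _ (hQ _) (hQ _) (hQ _) (hQ _) (hQ _)) (N+1)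
  rw [h0 0 (by omega), h0 (0+1) (by omega), h0 (0+2) (by omega), h0 (0+3) (by omega),
    hN (N+1) (by omega), hN (N+1+1) (by omega), hN (N+1+2) (by omega), hN (N+1+3) (by omega),
    P.hΩ0] at h1
  simp only [mul_sub, sum_sub_distrib, mul_left_comm _ P.c, ← mul_sum] at h1
  have h2 := single_le_sum (f := fun n => P.w^n * Q n^6) (s := range (N+1))
    (fun n _ => by positivity) (mem_range.2 (Nat.lt_succ_of_le hn))
  have h3 := mul_le_mul_of_nonneg_left h2 P.hc.le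
  unfold Ent.H
  linarith

theorem Ent.H_le (hL : 1 ≤ L) {N : ℕ} {Q : ℕ → ℝ} (hQ : ∀ n, 0 ≤ Q n) (h0 : Q 0 = 0)
    (hN : ∀ n, N < n → Q n = 0) :
    P.H N Q ≤ P.C * ((P.w*L+4) * ∑ n ∈ range (N+1), (P.w*L)^n * Q n^6) := by
  have hw := P.hw
  have hC := P.hC
  refine le_trans ?_ (mul_le_mul_of_nonneg_left (sum_sg (by nlinarith) h0 hN) hC)
  rw [mul_sum]
  refine sum_le_sum fun n _ => ?_
  obtain ⟨m, hm, h1, -, h2, h3, h4, h5⟩ := exists_max hQ n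
  have h6 := (P.bd m _ _ _ _ ((abs_of_nonneg (hQ _)).trans_le h2)
    ((abs_of_nonneg (hQ _)).trans_le h3) ((abs_of_nonneg (hQ _)).trans_le h4)
    ((abs_of_nonneg (hQ _)).trans_le h5)).1
  calc _ ≤ P.w^n * (P.C * m^6) := by gcongr; exact (le_abs_self _).trans h6
    _ ≤ (P.w*L)^n * (P.C * sg Q n) := by gcongr; nlinarith
    _ = _ := by ring

theorem Ent.dH_le (hL : 1 ≤ L) {ρ η A : ℝ} (hρ : 0 ≤ ρ) (hρu : ρ * L ≤ P.u) (hη : 0 < η)
    (hA : 0 ≤ A) {N : ℕ} {Q V : ℕ → ℝ} (hQ : ∀ n, 0 ≤ Q n) (h0 : ∀ n ≤ 3, Q n = 0)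
    (hN : ∀ n, N < n → Q n = 0)
    (he : ∀ n, |V n - (ρ * Q (n-1)^2 - Q n * Q (n+1) - Q n)| ≤ η * (Q (n-1) + Q n) + A / (P.w*L)^n) :
    P.dH N Q V ≤ (12*P.C*L^3*η*(P.w*L+4) - P.c) * (∑ n ∈ range (N+1), (P.w*L)^n * Q n^6)
      + 4*P.C*L^3*(A^6/η^5) * (1 - (P.w*L)⁻¹)⁻¹ := by
  have hw := P.hw
  have hC := P.hC
  have hu := P.hu0
  obtain ⟨v, hv⟩ : ∃ v, v = P.w*L := ⟨_, rfl⟩
  have hv1 : 1 < v := by nlinarith
  obtain ⟨s, hs0, hs1, hs⟩ : ∃ s, 0 ≤ s ∧ s ≤ 1 ∧ s * P.u = ρ * L :=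
    ⟨ρ * L / P.u, by positivity, (div_le_one hu).2 hρu, div_mul_cancel₀ _ hu.ne'⟩
  have h1 := tele (v := v)
    (a := fun n => P.D0 (Q n) (Q (n+1)) (Q (n+2)) (Q (n+3)) * V n
      + L * P.D1 (Q n) (Q (n+1)) (Q (n+2)) (Q (n+3)) * V (n+1)
      + L^2 * P.D2 (Q n) (Q (n+1)) (Q (n+2)) (Q (n+3)) * V (n+2)
      + L^3 * P.D3 (Q n) (Q (n+1)) (Q (n+2)) (Q (n+3)) * V (n+3) + P.c * Q n^6
      - 12*P.C*L^3*η * sg Q n - 4*P.C*L^3*(A^6/η^5) * (v⁻¹)^(2*n))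
    (τ := fun n => s * P.T (Q n) (Q (n+1)) (Q (n+2)) (Q (n+3))
      + (1-s) * P.Z (Q n) (Q (n+1)) (Q (n+2)) (Q (n+3)) + P.Θ (Q n) (Q (n+1)) (Q (n+2)) (Q (n+3))
      + ρ * P.D0 (Q n) (Q (n+1)) (Q (n+2)) (Q (n+3)) * Q (n-1)^2) (by linarith) (fun n => ?_) (N+1)
  · rw [h0 0 (by omega), h0 (0+1) (by omega), h0 (0+2) (by omega), h0 (0+3) (by omega),
      hN (N+1) (by omega), hN (N+1+1) (by omega), hN (N+1+2) (by omega), hN (N+1+3) (by omega),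
      P.hT0, P.hZ0, P.hΘ0] at h1
    have h2 : P.D0 0 0 0 0 = 0 := by simpa using (P.bd 0 0 0 0 0 (by simp) (by simp) (by simp) (by simp)).2.1
    have h3 := sum_sg hv1.le (h0 0 (by omega)) hN
    have h4 : ∑ n ∈ range (N+1), v^n * (v⁻¹)^(2*n) ≤ (1 - v⁻¹)⁻¹ := by
      have := geom_sum_Ico_le_of_lt_one (x := v⁻¹) (m := 0) (n := N+1) (by positivity)
        (inv_lt_one_of_one_lt₀ hv1)
      rw [← range_eq_Ico, pow_zero, one_div] at this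
      refine le_trans (le_of_eq (sum_congr rfl fun n _ => ?_)) this
      rw [two_mul, pow_add, ← mul_assoc, ← mul_pow, mul_inv_cancel₀ (by positivity), one_pow,
        one_mul]
    have h5 := mul_le_mul_of_nonneg_left h3 (by positivity : 0 ≤ 12*P.C*L^3*η)
    have h6 := mul_le_mul_of_nonneg_left h4 (by positivity : 0 ≤ 4*P.C*L^3*(A^6/η^5))
    simp only [h2, mul_sub, mul_add _ _ (P.c * _), sum_sub_distrib, sum_add_distrib,
      mul_left_comm _ P.c, mul_left_comm _ (12*P.C*L^3*η), mul_left_comm _ (4*P.C*L^3*(A^6/η^5)),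
      ← mul_sum] at h1
    unfold Ent.dH
    rw [← hv]
    linarith
  · obtain ⟨m, hm, m1, m2, m3, m4, m5, m6⟩ := exists_max hQ n
    obtain ⟨-, b0, b1, b2, b3⟩ := P.bd m _ _ _ _ ((abs_of_nonneg (hQ _)).trans_le m3)
      ((abs_of_nonneg (hQ _)).trans_le m4) ((abs_of_nonneg (hQ _)).trans_le m5)
      ((abs_of_nonneg (hQ _)).trans_le m6)
    have g1 := mul_le_mul_of_nonneg_left (P.hG _ _ _ _ _ (hQ n) (hQ (n+1)) (hQ (n+2)) (hQ (n+3))
      (hQ (n+4))) hs0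
    have g2 := mul_le_mul_of_nonneg_left (P.hZ _ _ _ _ _ (hQ n) (hQ (n+1)) (hQ (n+2)) (hQ (n+3))
      (hQ (n+4))) (sub_nonneg.2 hs1)
    have g3 := P.hΘ _ _ _ _ _ (hQ n) (hQ (n+1)) (hQ (n+2)) (hQ (n+3)) (hQ (n+4))
    rw [← hv] at he
    have hAv : ∀ j, A / v^(n+j) ≤ A / v^n := fun j =>
      div_le_div_of_nonneg_left hA (by positivity) (pow_le_pow_right₀ hv1.le (by omega))
    have herr : ∀ {D x y z l : ℝ} (j : ℕ), |D| ≤ P.C * m^5 → |x| ≤ η * (y + z) + A / v^(n+j) →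
        y ≤ m → z ≤ m → 0 ≤ l → l ≤ L^3 →
        l * D * x ≤ L^3 * P.C * (3 * η * sg Q n + (A^6/η^5) * (v⁻¹)^(2*n)) := by
      intro D x y z l j hD hx hy hz hl0 hl
      have e1 : |x| ≤ 2*η*m + A / v^n := by nlinarith [hAv j]
      have e2 := young6 hm (by positivity : 0 ≤ A / v^n) hη
      have e3 : (A / v^n)^6 / η^5 ≤ (A^6/η^5) * (v⁻¹)^(2*n) := by
        rw [div_pow, div_right_comm, div_eq_mul_inv _ ((v^n)^6), ← pow_mul, ← inv_pow]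
        exact mul_le_mul_of_nonneg_left (pow_le_pow_of_le_one (by positivity)
          (inv_le_one_of_one_le₀ hv1.le) (by omega)) (by positivity)
      have e4 : m^5 * (2*η*m + A / v^n) ≤ 3 * η * sg Q n + (A^6/η^5) * (v⁻¹)^(2*n) := by
        nlinarith [mul_le_mul_of_nonneg_left m1 hη.le]
      calc l * D * x ≤ l * (|D| * |x|) := by
            rw [mul_assoc, ← abs_mul]; exact mul_le_mul_of_nonneg_left (le_abs_self _) hl0
        _ ≤ L^3 * (P.C * m^5 * (2*η*m + A / v^n)) := by gcongr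
        _ = L^3 * P.C * (m^5 * (2*η*m + A / v^n)) := by ring
        _ ≤ _ := mul_le_mul_of_nonneg_left e4 (by positivity)
    have k0 := herr 0 b0 (he n) m2 m3 zero_le_one (one_le_pow₀ hL)
    have k1 := herr 1 b1 (he (n+1)) m3 m4 (by linarith : 0 ≤ L) (le_self_pow₀ hL (by norm_num))
    have k2 := herr 2 b2 (he (n+2)) m4 m5 (by positivity : 0 ≤ L^2)
      (pow_le_pow_right₀ hL (by norm_num))
    have k3 := herr 3 b3 (he (n+3)) m5 m6 (by positivity : 0 ≤ L^3) le_rfl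
    simp only [Nat.add_sub_cancel, add_assoc, Nat.reduceAdd, Nat.add_succ_sub_one] at k1 k2 k3 ⊢
    have hs' : ∀ x : ℝ, s * (P.u * x) = ρ * L * x := fun x => by rw [← mul_assoc, hs]
    subst hv
    linarith [hs' (P.w * P.D0 (Q (n+1)) (Q (n+2)) (Q (n+3)) (Q (n+4)) * Q n^2),
      hs' (P.D1 (Q n) (Q (n+1)) (Q (n+2)) (Q (n+3)) * Q n^2),
      hs' (L * P.D2 (Q n) (Q (n+1)) (Q (n+2)) (Q (n+3)) * Q (n+1)^2),
      hs' (L^2 * P.D3 (Q n) (Q (n+1)) (Q (n+2)) (Q (n+3)) * Q (n+2)^2)]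

end

end Pool.Agent.Work.MP_6bf1e5_an.En
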